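import Pool.Agent.H97.NegCurv.Smooth
import Pool.Agent.H97.NegCurv.Homeo
import Pool.Agent.H97.NegCurv.Conn

/-!
# A negatively curved closed surface of genus two in Euclidean four-space

The surface is the compact set `M0` of the points `(X₀, X₁, z, w)` of `ℝ⁴` with

* `X₀² = α(z, w)` and `X₁² = α(z, -w)`, where
  `α(z, w) = (1 + z² / 2 - 2 w) ((1 + 2 w / 5)² - z² / 4)`,
* `(z, w)` in the hexagon `|z| / 2 + 2 |w| / 5 ≤ 1`, `2 |w| ≤ 1 + z² / 2`.

The function `α(z, w)` vanishes, to first order, exactly on three alternate sides of the (curved)
hexagon, and `α(z, -w)` on the three other sides, so `M0` is obtained from four copies of the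
hexagon by reflections in its sides: it is a closed surface of genus two. In the coordinates
`(z, w)` the induced metric is explicit and the numerator of its Gaussian curvature is a
polynomial in `(z, w)`, whose negativity on the hexagon is proved with Bernstein-type
certificates. At the points of the sides and at the vertices the coordinates `X₀`, `X₁` have
to be used in place of `z`, `w`; the curvature formula is the same polynomial identity.
-/

open Pool.Agent.H97.NegCurv

/-- **Chern's question (genus two).** There is a compact connected smooth embedded surface
without boundary in Euclidean four-space, homeomorphic to the closed orientable surface of genus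
two, whose induced metric has negative Gaussian curvature at every point. -/
theorem Pool.Agent.Results.MP_e6758a_gt.NegCurvGenusTwo.result :
    ∃ M : Set E4, IsCompact M ∧ IsConnected M ∧ IsSmoothSurface M ∧ Nonempty (M ≃ₜ GenusTwo) ∧
      ∀ (U : Set (ℝ × ℝ)) (φ : ℝ × ℝ → E4), IsLocalParam M U φ → ∀ p ∈ U, gaussCurv φ p < 0 :=
  ⟨M0, isCompact_M0, isConnected_M0, isSmoothSurface_M0, homeo_M0,
    fun _ _ h _ hp => curv_neg h hp⟩
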